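import Pool.Agent.Helper46.NU.DfnT
import Pool.Agent.Helper30.NU.NAT
import Pool.Agent.Helper97.NU.OMG
import Pool.Agent.Helper60.NU.EX1
import Pool.Agent.Helper8.NU.PAR
import Pool.Agent.Helper77.NU.FN1
import Pool.Agent.Helper96.NU.FN2
import Pool.Agent.Helper5.NU.EXJ
import Pool.Agent.Helper14.NU.Fam
import Pool.Agent.Helper6.Ku.Full
import Pool.Agent.Helper83.NU.SYI

/-! # Names in Boolean-valued universes: hub of the basic facts (all without hypotheses) -/

namespace UN.Lib

open Pool.Agent.Helper97.Ku NU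

theorem nat : G_NAT := PkNAT.nat
theorem omg : G_OMG := PkOMG.omg nat
theorem ex1 : G_EX1 := PkEX1.ex1
theorem exj : G_EXJ := PkEXJ.exj
theorem par : G_PAR := PkPAR.par
theorem fn1 : G_FN1 := PkFN1.fn1 nat
theorem fn2 : G_FN2 := PkFN2.fn2 nat fn1
theorem fam : G_FAM := PkFAM.fam
theorem mix : G_MIX.{0} := PkFull.mix
theorem full : G_FULL.{0} := PkFull.full
theorem syi : G_SYI := PkSYI.syi

end UN.Lib
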