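import Pool.Agent.Helper79.UN.Main
import Pool.Agent.Helper79.UN.Lib
import Pool.Agent.Helper14.UN.CMP
import Pool.Agent.Helper14.UN.EX1
import Pool.Agent.Helper14.UN.SG1
import Pool.Agent.Helper14.UN.SG2
import Pool.Agent.Helper14.UN.SY1
import Pool.Agent.Helper25.UN.SYN
import Pool.Agent.Helper27.UN.REC
import Pool.Agent.Helper29.UN.EX2
import Pool.Agent.Helper35.UN.SMC
import Pool.Agent.Helper41.UN.LGC
import Pool.Agent.Helper5.UN.DOM
import Pool.Agent.Helper6.UN.MKS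
import Pool.Agent.Helper6.UN.SG0
import Pool.Agent.Helper11.UN.LGZ
import Pool.Agent.Helper65.UN.BAS
import Pool.Agent.Helper68.UN.SG
import Pool.Agent.Helper69.UN.S2
import Pool.Agent.Helper84.UN.ATT
import Pool.Agent.Helper86.UN.SQ
import Pool.Agent.Helper87.UN.SY2
import Pool.Agent.Helper87.UN.SY3
import Pool.Agent.Helper89.UN.LOC
import Pool.Agent.Helper97.UN.BR2
import Pool.Agent.Helper57.UN.MIX

/-! # MP_57a173_lc, part N: the result without hypotheses -/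

namespace UN

open Pool.Agent.Helper97.Ku NU UL

/-- From the algebraic interface (the forcing part) to a model of ZFC in which the statement
`Phi` holds. -/
theorem model (h : ∃ (L : Type) (_ : CompleteBooleanAlgebra L) (_ : Nontrivial L) (J : Type)
    (v : J → L), Dich L J v ∧ SigC L J v) :
    ∃ (N : Type 1) (E : N → N → Prop), IsZFC N E ∧ UL.Phi E := by
  obtain ⟨L, _, _, J, v, hD, hS⟩ := h
  have cmp_ : U_CMP := PkCMP.cmp_pf
  have sq_ : U_SQ := PkSQ.sq_pf cmp_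
  have s2_ : U_S2 := PkS2.s2_pf cmp_
  have dom : U_DOM := PkDOM.dom_pf
  have ex1 : U_EX1 := PkEX1.ex1_pf
  have ex2 : U_EX2 := PkEX2.ex2_pf
  have sg : U_SG := PkSG.sg_pf cmp_ sq_ ex1
  have mks : U_MKS := PkMKS.mks_pf cmp_ sq_ ex1
  have bas : U_BAS := PkBAS.bas_pf cmp_ ex1 ex2 sg
  have mix : U_MIX := PkMIX.mix_pf
  have loc : U_LOC := PkLOC.loc_pf
  have att : U_ATT := PkATT.att_pf mix loc
  have smc : U_SMC := PkSMC.smc_pf cmp_ ex2 mks att
  have sg0 : U_SG0 := PkSG0.sg0_pf cmp_ ex2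
  have sg1 : U_SG1 := PkSG1.sg1_pf cmp_ sq_ ex1 ex2 sg0
  have sg2 : U_SG2 := PkSG2.sg2_pf cmp_ sq_ ex1 ex2 sg1
  have lgc : U_LGC := PkLGC.lgc_pf cmp_ dom ex2 mks
  have lgz : U_LGZ := PkLGZ.lgz_pf cmp_ ex2
  have rec_ : U_REC := PkREC.rec_pf cmp_ s2_ ex2 sg
  have br2 : U_BR2 := PkBR2.br2_pf cmp_ s2_ ex2 sg bas rec_
  have sy1 : U_SY1 := PkSY1.sy1_pf
  have sy2 : U_SY2 := PkSY2.sy2_pf
  have sy3 : U_SY3 := PkSY3.sy3_pf sy1
  have syn : U_SYN := PkSYN.syn_pf sy1 sy2 sy3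
  exact main Lib.omg s2_ dom ex2 bas smc sg2 lgc lgz br2 syn L J v hD hS

end UN
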