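import Pool.Agent.Helper79.UN.NGoals
import Pool.Agent.Helper46.FL.Lib

/-!
# MP_57a173_lc, part N: assembly
-/

noncomputable section

namespace UN

open Pool.Agent.Helper97.Ku NU UL

theorem iffV_ext {L : Type} [CompleteBooleanAlgebra L] {φ ψ : BSet L → L} (h : BSet.Ext φ)
    (k : BSet.Ext ψ) : BSet.Ext (fun x => iffV (φ x) (ψ x)) :=
  (h.himp k).inf (k.himp h)

/-- The value of `Phi`. -/
theorem val (omg : G_OMG) (s2_ : U_S2) (dom : U_DOM) (ex2 : U_EX2) (bas : U_BAS) (smc : U_SMC)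
    (sg2 : U_SG2) (lgc : U_LGC) (lgz : U_LGZ) (br2 : U_BR2)
    (L : Type) [CompleteBooleanAlgebra L] (J : Type) (v : J → L) (hD : Dich L J v)
    (hS : SigC L J v) : phiV L = ⊤ := by
  rw [eq_top_iff]
  refine le_trans ?_ (le_iSup _ (omN : BSet L))
  rw [omg L, top_inf_eq]
  refine le_iInf fun K => le_iInf fun A => ?_
  by_contra hc
  set X := ⨅ Y : BSet L, (isBorV omN K A Y ⇨ sig2V omN K A Y) with hX
  set Y := ⨆ D : BSet L, ⨆ W : BSet L, ⨆ Z : BSet L, (isSqrV K D ⊓ (isBor2V omN K A D W ⊓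
        (isProjV K W Z ⊓ (isBorV omN K A Z)ᶜ))) with hY
  have hb : (X ⊔ Y)ᶜ ≠ ⊥ := fun h => hc (by rw [compl_eq_bot.mp h])
  obtain ⟨ι, f, hf⟩ := dom L K
  obtain ⟨b, hb1, hb2, hb3⟩ := hD ι (fun i => (f i).mem K) (fun i => rl A (f i)) _ hb
  obtain ⟨e1, -, -, e4, e5, e6, e7, e8⟩ := ex2 L J v K A
  rcases hb3 with h | ⟨W, hW⟩
  · have hGF : GF K A b := by
      intro q
      obtain ⟨q', hq⟩ := h q
      refine ⟨q', ?_⟩
      rw [(hf _ (iffV_ext (e4 q).2 (e4 q').1)).1]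
      exact le_iInf fun i => le_himp_iff.mpr (hq i)
    obtain ⟨h1, h2⟩ := smc L K A b hGF
    have h3 : b ≤ X := by
      refine le_iInf fun Y => le_himp_iff.mpr ?_
      refine le_trans (le_inf ?_ ?_) (sg2 L K A Y)
      · exact inf_le_right.trans inf_le_left
      · exact (bas L K A).2.2 (psF K A) b e7 h1 h2 Y
    have h4 : b ≤ Xᶜ := hb1.trans (compl_le_compl le_sup_left)
    exact hb2 (le_bot_iff.mp ((le_inf h3 h4).trans (by simp)))
  · set Z := cmp K fun x => ⨆ y : BSet L, (y.mem K ⊓ bdV v A W x y) with hZ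
    have h1 : b ⊓ psC v K A Z = ⊥ := by
      refine lgz L J v K A W b fun c => ?_
      have h2 : BSet.Ext (fun x => ⨆ y : BSet L, (y.mem K ⊓ bdV v A W x y)) :=
        BSet.Ext.iSup fun y => (BSet.Ext.const _).inf (e6 W y).2
      rw [(hf _ (BSet.Ext.compl (iffV_ext h2 (e5 c)))).2]
      refine (hW c).trans (iSup_mono fun i => inf_le_inf_left _ (compl_le_compl ?_))
      rw [(hf _ (e6 W (f i)).1).2]
      exact le_rfl
    obtain ⟨h2, h3⟩ := lgc L J v K A hS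
    have h4 : isBorV omN K A Z ≤ psC v K A Z := by
      have := (bas L K A).2.2 (psC v K A) ⊤ e8 (by rw [h2]) (fun n => by rw [h3 n]) Z
      rwa [top_inf_eq] at this
    have h5 : b ≤ Y := by
      refine le_trans ?_ (le_iSup_of_le (s2 K fun _ _ => ⊤) (le_iSup_of_le (s2 K (bdV v A W))
        (le_iSup _ Z)))
      have s := s2_ L K (bdV v A W) (fun x => (e6 W x).1) (fun y => (e6 W y).2)
      rw [s.2.2.1, s.2.2.2, br2 L J v K A W, top_inf_eq, top_inf_eq, top_inf_eq]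
      refine le_compl_iff_disjoint_right.mpr (disjoint_iff_inf_le.mpr ?_)
      exact (inf_le_inf_left _ h4).trans h1.le
    have h6 : b ≤ Yᶜ := hb1.trans (compl_le_compl le_sup_right)
    exact hb2 (le_bot_iff.mp ((le_inf h5 h6).trans (by simp)))

/-- From the forcing to the model. -/
theorem main (omg : G_OMG) (s2_ : U_S2) (dom : U_DOM) (ex2 : U_EX2) (bas : U_BAS) (smc : U_SMC)
    (sg2 : U_SG2) (lgc : U_LGC) (lgz : U_LGZ) (br2 : U_BR2) (syn : U_SYN)
    (L : Type) [CompleteBooleanAlgebra L] [Nontrivial L] (J : Type) (v : J → L)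
    (hD : Dich L J v) (hS : SigC L J v) :
    ∃ (N : Type 1) (E : N → N → Prop), IsZFC N E ∧ UL.Phi E := by
  have h1 : phiV L = ⊤ := val omg s2_ dom ex2 bas smc sg2 lgc lgz br2 L J v hD hS
  obtain ⟨φ, h2, h3⟩ := syn
  have h4 : φ.val (fun _ => (omN : BSet L)) ≠ ⊥ := by
    rw [h3]
    change phiV L ≠ ⊥
    rw [h1]
    exact top_ne_bot
  obtain ⟨N, E, w, hZ, hv⟩ := Pool.Agent.Helper46.FL.con L φ _ h4
  exact ⟨N, E, hZ, (h2 N E w).1 hv⟩

end UN
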