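import Pool.Agent.Helper79.UN.NModel

/-!
# MP_57a173_lc, part N: goals
-/

noncomputable section

namespace UN

open Pool.Agent.Helper97.Ku NU UL

/-! ### Names -/

/-- Names of subsets and of families of subsets. -/
def U_CMP : Prop := ∀ (L : Type) [CompleteBooleanAlgebra L] (K : BSet L),
  (∀ φ : BSet L → L, BSet.Ext φ → ∀ x : BSet L, x.mem (cmp K φ) = x.mem K ⊓ φ x) ∧
  (∀ ψ : BSet L → L, BSet.Ext ψ → ∀ Z : BSet L, Z.mem (pw K ψ) = subV Z K ⊓ ψ Z)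

/-- Names of sequences of subsets. -/
def U_SQ : Prop := ∀ (L : Type) [CompleteBooleanAlgebra L] (K : BSet L) (θ : ℕ → BSet L → L),
  (∀ n, BSet.Ext (θ n)) →
  (∀ u x : BSet L, apV (sq K θ) u x = ⨆ n : ℕ, (u.eq (nn n) ⊓ (x.mem K ⊓ θ n x))) ∧
  (∀ (n : ℕ) (x : BSet L), apV (sq K θ) (nn n) x = x.mem K ⊓ θ n x) ∧
  isUnV omN K (sq K θ) (cmp K fun x => ⨆ n, θ n x) = ⊤ ∧
  ∀ n : ℕ, isSecV K (sq K θ) (nn n) (cmp K (θ n)) = ⊤

/-- Names of sets of pairs. -/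
def U_S2 : Prop := ∀ (L : Type) [CompleteBooleanAlgebra L] (K : BSet L)
  (θ : BSet L → BSet L → L), (∀ x, BSet.Ext (θ x)) → (∀ y, BSet.Ext (fun x => θ x y)) →
  (∀ z : BSet L, z.mem (s2 K θ) =
    ⨆ x : BSet L, ⨆ y : BSet L, (x.mem K ⊓ (y.mem K ⊓ (prV z x y ⊓ θ x y)))) ∧
  (∀ x y : BSet L, apV (s2 K θ) x y = x.mem K ⊓ (y.mem K ⊓ θ x y)) ∧
  isSqrV K (s2 K fun _ _ => ⊤) = ⊤ ∧
  isProjV K (s2 K θ) (cmp K fun x => ⨆ y : BSet L, (y.mem K ⊓ θ x y)) = ⊤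

/-- Bounded quantifiers. -/
def U_DOM : Prop := ∀ (L : Type) [CompleteBooleanAlgebra L] (K : BSet L),
  ∃ (ι : Type) (f : ι → BSet L), ∀ φ : BSet L → L, BSet.Ext φ →
    (⨅ x : BSet L, (x.mem K ⇨ φ x)) = (⨅ i, ((f i).mem K ⇨ φ (f i))) ∧
    (⨆ x : BSet L, (x.mem K ⊓ φ x)) = ⨆ i, ((f i).mem K ⊓ φ (f i))

/-- Extensionality, first part. -/
def U_EX1 : Prop := ∀ (L : Type) [CompleteBooleanAlgebra L] (o K A : BSet L),
  (∀ R Y : BSet L, BSet.Ext (fun u => isSecV K R u Y) ∧ BSet.Ext (fun u => isSecV K R Y u)) ∧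
  (∀ Y : BSet L, BSet.Ext (fun Z => isCplV K Y Z) ∧ BSet.Ext (fun Z => isCplV K Z Y)) ∧
  (∀ R : BSet L, BSet.Ext (fun Z => isUnV o K R Z)) ∧
  BSet.Ext (fun S => isSigV o K S) ∧ BSet.Ext (fun Y => isBorV o K A Y) ∧
  BSet.Ext (fun Y => sig0V o K A Y) ∧ BSet.Ext (fun Y => sig1V o K A Y)

/-- Extensionality, second part. -/
def U_EX2 : Prop := ∀ (L : Type) [CompleteBooleanAlgebra L] (J : Type) (v : J → L)
  (K A : BSet L),
  (∀ n : ℕ, BSet.Ext (fun x => rl A x n)) ∧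
  (∀ σ : List Bool, BSet.Ext (fun x => basV (rl A x) σ)) ∧
  (∀ q : List Bool → L, BSet.Ext (fun x => opV q (rl A x))) ∧
  (∀ q : ℕ → List Bool → L, BSet.Ext (fun x => fsV q (rl A x)) ∧
    BSet.Ext (fun x => gdV q (rl A x))) ∧
  (∀ c : PF (ℕ ⊕ J), BSet.Ext (fun x => bcV v A c x)) ∧
  (∀ (W : PF ((ℕ ⊕ ℕ) ⊕ J)) (x : BSet L), BSet.Ext (fun y => bdV v A W x y) ∧
    BSet.Ext (fun y => bdV v A W y x)) ∧
  BSet.Ext (fun Y => psF K A Y) ∧ BSet.Ext (fun Y => psC v K A Y)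

/-! ### Sigma-algebras -/

/-- Closure properties of a sigma-algebra. -/
def U_SG : Prop := ∀ (L : Type) [CompleteBooleanAlgebra L] (K S : BSet L),
  isSigV omN K S ≤ K.mem S ∧
  (∀ Y : BSet L, isSigV omN K S ⊓ Y.mem S ≤ (cmp K fun x => (x.mem Y)ᶜ).mem S) ∧
  (∀ t : ℕ → BSet L, isSigV omN K S ⊓ (⨅ n, (t n).mem S) ≤
    (cmp K fun x => ⨆ n, x.mem (t n)).mem S)

/-- Construction of sigma-algebras. -/
def U_MKS : Prop := ∀ (L : Type) [CompleteBooleanAlgebra L] (K : BSet L) (ψ : BSet L → L)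
  (b : L), BSet.Ext ψ → (b ≤ ⨆ Y : BSet L, (subV Y K ⊓ ψ Y)) →
  (∀ Y : BSet L, b ⊓ (subV Y K ⊓ ψ Y) ≤ ψ (cmp K fun x => (x.mem Y)ᶜ)) →
  (∀ t : ℕ → BSet L, b ⊓ (⨅ n, (subV (t n) K ⊓ ψ (t n))) ≤
    ψ (cmp K fun x => ⨆ n, x.mem (t n))) →
  b ≤ isSigV omN K (pw K ψ)

/-- Borel sets over the sequence `A`. -/
def U_BAS : Prop := ∀ (L : Type) [CompleteBooleanAlgebra L] (K A : BSet L),
  isBorV omN K A K = ⊤ ∧
  (∀ n : ℕ, isBorV omN K A (cmp K fun x => rl A x n) = ⊤) ∧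
  ∀ (ψ : BSet L → L) (b : L), BSet.Ext ψ → b ≤ isSigV omN K (pw K ψ) →
    (∀ n : ℕ, b ≤ ψ (cmp K fun x => rl A x n)) →
    ∀ Y : BSet L, b ⊓ isBorV omN K A Y ≤ ψ Y

/-! ### The small case -/

/-- Mixing of functions. -/
def U_MIX : Prop := ∀ (L : Type) [CompleteBooleanAlgebra L] (T κ : Type) (c : κ → L)
  (q : κ → T → L), ∃ (p : T → L) (a : κ → L), (∀ k, a k ≤ c k) ∧ (⨆ k, c k) ≤ (⨆ k, a k) ∧
    ∀ k t, a k ≤ iffV (p t) (q k t)

/-- The values of `F_σ` and `G_δ` sets depend locally on the codes. -/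
def U_LOC : Prop := ∀ (L : Type) [CompleteBooleanAlgebra L] (q q' : ℕ → List Bool → L) (a : L)
  (r : ℕ → L), (∀ n σ, a ≤ iffV (q n σ) (q' n σ)) → a ≤ iffV (fsV q r) (fsV q' r)

/-- If `Y` is an `F_σ` set then it has a code. -/
def U_ATT : Prop := ∀ (L : Type) [CompleteBooleanAlgebra L] (K A Y : BSet L),
  ∃ q : ℕ → List Bool → L, psF K A Y ≤ cF K A Y q

/-- Below `b` every `G_δ` subset of `K` is an `F_σ` subset of `K`. -/
def GF {L : Type} [CompleteBooleanAlgebra L] (K A : BSet L) (b : L) : Prop :=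
  ∀ q : ℕ → List Bool → L, ∃ q' : ℕ → List Bool → L,
    b ≤ ⨅ x : BSet L, (x.mem K ⇨ iffV (gdV q (rl A x)) (fsV q' (rl A x)))

/-- The `F_σ` subsets of `K` are a sigma-algebra. -/
def U_SMC : Prop := ∀ (L : Type) [CompleteBooleanAlgebra L] (K A : BSet L) (b : L),
  GF K A b → b ≤ isSigV omN K (pw K (psF K A)) ∧
    ∀ n : ℕ, b ≤ psF K A (cmp K fun x => rl A x n)

/-- Sets of class `0`. -/
def U_SG0 : Prop := ∀ (L : Type) [CompleteBooleanAlgebra L] (K A : BSet L) (σ : List Bool)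
  (e : L), sig0V omN K A (cmp K fun x => (e ⊓ basV (rl A x) σ)ᶜ) = ⊤

/-- Sets of class `1`. -/
def U_SG1 : Prop := ∀ (L : Type) [CompleteBooleanAlgebra L] (K A : BSet L)
  (q : List Bool → L), sig1V omN K A (cmp K fun x => opV q (rl A x)) = ⊤

/-- `F_σ` sets are of class `2`. -/
def U_SG2 : Prop := ∀ (L : Type) [CompleteBooleanAlgebra L] (K A Y : BSet L),
  subV Y K ⊓ psF K A Y ≤ sig2V omN K A Y

/-! ### The large case -/

/-- The Borel sets with a code in the ground model are a sigma-algebra. -/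
def U_LGC : Prop := ∀ (L : Type) [CompleteBooleanAlgebra L] (J : Type) (v : J → L)
  (K A : BSet L), SigC L J v → isSigV omN K (pw K (psC v K A)) = ⊤ ∧
    ∀ n : ℕ, psC v K A (cmp K fun x => rl A x n) = ⊤

/-- The projection is not one of these sets. -/
def U_LGZ : Prop := ∀ (L : Type) [CompleteBooleanAlgebra L] (J : Type) (v : J → L)
  (K A : BSet L) (W : PF ((ℕ ⊕ ℕ) ⊕ J)) (b : L),
  (∀ c : PF (ℕ ⊕ J), b ≤ ⨆ x : BSet L, (x.mem K ⊓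
    (iffV (⨆ y : BSet L, (y.mem K ⊓ bdV v A W x y)) (bcV v A c x))ᶜ)) →
  b ⊓ psC v K A (cmp K fun x => ⨆ y : BSet L, (y.mem K ⊓ bdV v A W x y)) = ⊥

/-- Rectangles, and sets which do not depend on the point. -/
def U_REC : Prop := ∀ (L : Type) [CompleteBooleanAlgebra L] (K A S : BSet L),
  (∀ n : ℕ, isRecV (cmp K fun x => rl A x n) K (s2 K fun x _ => rl A x n) = ⊤) ∧
  (∀ n : ℕ, isRecV K (cmp K fun x => rl A x n) (s2 K fun _ y => rl A y n) = ⊤) ∧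
  ∀ a : L, isSigV omN (s2 K fun _ _ => ⊤) S ≤ (s2 K fun _ _ => a).mem S

/-- The set with the code `W` is in the sigma-algebra on the square. -/
def U_BR2 : Prop := ∀ (L : Type) [CompleteBooleanAlgebra L] (J : Type) (v : J → L)
  (K A : BSet L) (W : PF ((ℕ ⊕ ℕ) ⊕ J)),
  isBor2V omN K A (s2 K fun _ _ => ⊤) (s2 K (bdV v A W)) = ⊤

/-! ### Syntax -/

def U_SY1 : Prop := ∀ i j k l : ℕ, Dfn (fun _ E w => IsBor E (w i) (w j) (w k) (w l))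
  (fun _ _ w => isBorV (w i) (w j) (w k) (w l))

def U_SY2 : Prop := ∀ i j k l : ℕ, Dfn (fun _ E w => Sig2 E (w i) (w j) (w k) (w l))
  (fun _ _ w => sig2V (w i) (w j) (w k) (w l))

def U_SY3 : Prop := ∀ i j k l m : ℕ,
  Dfn (fun _ E w => IsBor2 E (w i) (w j) (w k) (w l) (w m))
    (fun _ _ w => isBor2V (w i) (w j) (w k) (w l) (w m)) ∧
  Dfn (fun _ E w => IsSqr E (w i) (w j)) (fun _ _ w => isSqrV (w i) (w j)) ∧
  Dfn (fun _ E w => IsProj E (w i) (w j) (w k)) (fun _ _ w => isProjV (w i) (w j) (w k))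

def U_SYN : Prop := Dfn (fun _ E _ => UL.Phi E) (fun L _ _ => phiV L)

end UN
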