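import Pool.Agent.Helper15.UL.Iface

/-!
# MP_57a173_lc, part N: the Boolean-valued version of the statement `Phi`, and names
-/

noncomputable section

namespace UN

open Pool.Agent.Helper97.Ku NU UL

section Val

variable {L : Type} [CompleteBooleanAlgebra L]

def isSecV (K R u Y : BSet L) : L := ⨅ x : BSet L, iffV (x.mem Y) (x.mem K ⊓ apV R u x)

def isCplV (K Y Z : BSet L) : L := ⨅ x : BSet L, iffV (x.mem Z) (x.mem K ⊓ (x.mem Y)ᶜ)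

def isUnV (o K R Z : BSet L) : L :=
  ⨅ x : BSet L, iffV (x.mem Z) (x.mem K ⊓ ⨆ n : BSet L, (n.mem o ⊓ apV R n x))

def isSigV (o K S : BSet L) : L :=
  (⨅ Y : BSet L, (Y.mem S ⇨ subV Y K)) ⊓
  ((⨆ Y : BSet L, Y.mem S) ⊓
  ((⨅ Y : BSet L, (Y.mem S ⇨ ⨆ Z : BSet L, (Z.mem S ⊓ isCplV K Y Z))) ⊓
  (⨅ R : BSet L, ((⨅ n : BSet L, (n.mem o ⇨ ⨆ Y : BSet L, (Y.mem S ⊓ isSecV K R n Y))) ⇨
    ⨆ Z : BSet L, (Z.mem S ⊓ isUnV o K R Z)))))

def isBorV (o K A Y : BSet L) : L :=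
  subV Y K ⊓ ⨅ S : BSet L, (isSigV o K S ⇨
    ((⨅ n : BSet L, (n.mem o ⇨ ⨆ Z : BSet L, (Z.mem S ⊓ isSecV K A n Z))) ⇨ Y.mem S))

def isSqrV (K D : BSet L) : L :=
  ⨅ z : BSet L, iffV (z.mem D) (⨆ x : BSet L, ⨆ y : BSet L, (x.mem K ⊓ (y.mem K ⊓ prV z x y)))

def isRecV (P Q Z : BSet L) : L :=
  ⨅ z : BSet L, iffV (z.mem Z) (⨆ x : BSet L, ⨆ y : BSet L, (x.mem P ⊓ (y.mem Q ⊓ prV z x y)))

def isBor2V (o K A D W : BSet L) : L :=
  ⨅ S : BSet L, (isSigV o D S ⇨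
    ((⨅ P : BSet L, ⨅ Q : BSet L, ⨅ Z : BSet L,
      (isBorV o K A P ⇨ (isBorV o K A Q ⇨ (isRecV P Q Z ⇨ Z.mem S)))) ⇨ W.mem S))

def isProjV (K W Z : BSet L) : L :=
  ⨅ x : BSet L, iffV (x.mem Z) (x.mem K ⊓ ⨆ y : BSet L, apV W x y)

def sig0V (o K A Y : BSet L) : L :=
  subV Y K ⊓ ⨆ n : BSet L, (n.mem o ⊓ ⨅ x : BSet L, ⨅ x' : BSet L, (x.mem K ⇨ (x'.mem K ⇨
    ((⨅ m : BSet L, (m.mem n ⇨ iffV (apV A m x) (apV A m x'))) ⇨
      iffV (x.mem Y) (x'.mem Y)))))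

def sig1V (o K A Y : BSet L) : L :=
  ⨆ R : BSet L, (isUnV o K R Y ⊓ ⨅ n : BSet L, (n.mem o ⇨
    ⨆ X : BSet L, ⨆ Z : BSet L, (isSecV K R n X ⊓ (isCplV K X Z ⊓ sig0V o K A Z))))

def sig2V (o K A Y : BSet L) : L :=
  ⨆ R : BSet L, (isUnV o K R Y ⊓ ⨅ n : BSet L, (n.mem o ⇨
    ⨆ X : BSet L, ⨆ Z : BSet L, (isSecV K R n X ⊓ (isCplV K X Z ⊓
      (sig0V o K A Z ⊔ sig1V o K A Z)))))

/-- The Boolean value of `Phi`. -/
def phiV (L : Type) [CompleteBooleanAlgebra L] : L :=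
  ⨆ o : BSet L, (omegaV o ⊓ ⨅ K : BSet L, ⨅ A : BSet L,
    ((⨅ Y : BSet L, (isBorV o K A Y ⇨ sig2V o K A Y)) ⊔
      ⨆ D : BSet L, ⨆ W : BSet L, ⨆ Z : BSet L, (isSqrV K D ⊓ (isBor2V o K A D W ⊓
        (isProjV K W Z ⊓ (isBorV o K A Z)ᶜ)))))

/-! ### Names -/

/-- The name of the set of all `x ∈ K` with `φ x`. -/
def cmp : BSet L → (BSet L → L) → BSet L
  | .mk ι f w, φ => BSet.mk ι f (fun i => w i ⊓ φ (f i))

/-- The name of the set of all subsets `Y` of `K` with `ψ Y`. -/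
def pw : BSet L → (BSet L → L) → BSet L
  | .mk ι f w, ψ => BSet.mk (ι → L) (fun y => BSet.mk ι f (fun i => w i ⊓ y i))
      (fun y => ψ (BSet.mk ι f (fun i => w i ⊓ y i)))

/-- The name of the set of all `(n, x)`, `n ∈ ω`, `x ∈ K`, with `θ n x`. -/
def sq : BSet L → (ℕ → BSet L → L) → BSet L
  | .mk ι f w, θ => BSet.mk (ℕ × ι) (fun p => kpr (nn p.1) (f p.2))
      (fun p => w p.2 ⊓ θ p.1 (f p.2))

/-- The name of the set of all `(x, y)`, `x, y ∈ K`, with `θ x y`. -/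
def s2 : BSet L → (BSet L → BSet L → L) → BSet L
  | .mk ι f w, θ => BSet.mk (ι × ι) (fun p => kpr (f p.1) (f p.2))
      (fun p => w p.1 ⊓ (w p.2 ⊓ θ (f p.1) (f p.2)))

/-- The real coding `x`: its `n`-th bit says whether `(n, x) ∈ A`. -/
def rl (A x : BSet L) : ℕ → L := fun n => apV A (nn n) x

/-- The values of membership in a `G_δ` set and in an `F_σ` set. -/
def gdV (q : ℕ → List Bool → L) (r : ℕ → L) : L := ⨅ n, opV (q n) r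

def fsV (q : ℕ → List Bool → L) (r : ℕ → L) : L := ⨆ n, (opV (q n) r)ᶜ

/-- The value of: the subset `Y` of `K` is the `F_σ` set coded by `q`. -/
def cF (K A Y : BSet L) (q : ℕ → List Bool → L) : L :=
  ⨅ x : BSet L, (x.mem K ⇨ iffV (x.mem Y) (fsV q (rl A x)))

/-- The value of: the subset `Y` of `K` is an `F_σ` set. -/
def psF (K A Y : BSet L) : L := ⨆ q : ℕ → List Bool → L, cF K A Y q

variable {J : Type}

/-- The value at `x` of a Borel code. -/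
def bcV (v : J → L) (A : BSet L) (c : PF (ℕ ⊕ J)) (x : BSet L) : L :=
  c.ev (Sum.elim (rl A x) v)

/-- The value at `(x, y)` of a Borel code. -/
def bdV (v : J → L) (A : BSet L) (W : PF ((ℕ ⊕ ℕ) ⊕ J)) (x y : BSet L) : L :=
  W.ev (Sum.elim (Sum.elim (rl A x) (rl A y)) v)

/-- The value of: the subset `Y` of `K` is a Borel set with a code in the ground model. -/
def psC (v : J → L) (K A Y : BSet L) : L :=
  ⨆ c : PF (ℕ ⊕ J), ⨅ x : BSet L, (x.mem K ⇨ iffV (x.mem Y) (bcV v A c x))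

end Val

end UN
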